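import Mathlib
import Pool.Agent.helper616_fc.Core
import Pool.Agent.Y902.FB.ExR

/-!
# The three bases of a solution are never close to powers of one integer

There are absolute constants `C` and `κ` such that for every solution of `x ^ p + y ^ q = z ^ r` in
pairwise coprime positive integers, with exponents `p, q, r ≥ 2` (all free), and for every integer
`n ≥ 2` and all `a, b, c ≥ 1`
`max (|x - n ^ a|, |y - n ^ b|, |z - n ^ c|) ≥ n / (C (log max (x, y, z)) ^ κ)`.

So there is no solution at all whose three bases lie in the windows of length `n / (C log ^ κ)` around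
three powers of a common integer `n`. With `a = b = c = 1`: the bases of a solution never lie
in a common interval `[n, n + n / (C (log n) ^ κ)]`.

Proof. Linear forms in two logarithms bound the exponents by a power of `log max (x, y, z)` (a theorem
of the starting files, `Pool.Agent.Y902.FB.exp_bound_real`). The two largest of the three powers are
near the same power `n ^ D` of `n`, and their difference is `m n ^ t (1 + o(1))` with an integer `m`,
`0 < |m| ≤ n / 50`, which is the product of an exponent and of a deviation (or of a difference of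
two deviations). The third power is `n ^ B (1 + o(1))`, so that `|m| = 1`. But `m` is divisible by an exponent.
-/

set_option autoImplicit false

namespace Pool.Agent.Results.MP_509488_nt.BasesNearPowers

open Pool.Agent.helper616_fc

theorem result : ∃ (C : ℝ) (κ : ℕ), 0 < C ∧ ∀ x y z p q r : ℕ, 0 < x → 0 < y → 0 < z →
    Nat.Coprime x y → Nat.Coprime x z → Nat.Coprime y z → 2 ≤ p → 2 ≤ q → 2 ≤ r →
    x ^ p + y ^ q = z ^ r → ∀ n a b c : ℕ, 2 ≤ n → 0 < a → 0 < b → 0 < c →
      (n : ℝ) ≤ C * Real.log ((max x (max y z) : ℕ) : ℝ) ^ κ *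
        max |(x : ℝ) - (n : ℝ) ^ a| (max |(y : ℝ) - (n : ℝ) ^ b| |(z : ℝ) - (n : ℝ) ^ c|) := by
  obtain ⟨C₀, κ, hC₀, hexp⟩ := Pool.Agent.Y902.FB.exp_bound_real
  refine ⟨100 * C₀ + 200, κ, by positivity, ?_⟩
  intro x y z p q r hx hy hz hxy hxz hyz hp hq hr heq n a b c hn ha hb hc
  obtain ⟨e1, e2, e3⟩ := hexp x y z p q r hx hy hz hxy hxz hyz hp hq hr heq
  set H := max x (max y z) with hH
  set L := Real.log (H : ℝ) with hL
  set W := max |(x : ℝ) - (n : ℝ) ^ a| (max |(y : ℝ) - (n : ℝ) ^ b| |(z : ℝ) - (n : ℝ) ^ c|) with hW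
  have hWx : |(x : ℝ) - (n : ℝ) ^ a| ≤ W := le_max_left _ _
  have hWy : |(y : ℝ) - (n : ℝ) ^ b| ≤ W := (le_max_left _ _).trans (le_max_right _ _)
  have hWz : |(z : ℝ) - (n : ℝ) ^ c| ≤ W := (le_max_right _ _).trans (le_max_right _ _)
  have hxH : x ≤ H := le_max_left _ _
  have hyH : y ≤ H := (le_max_left _ _).trans (le_max_right _ _)
  have hzH : z ≤ H := (le_max_right _ _).trans (le_max_right _ _)
  have hxp : 0 < x ^ p := Nat.pow_pos hx
  have hyq : 0 < y ^ q := Nat.pow_pos hy
  have hz2 : 2 ≤ z := by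
    by_contra h
    have h1 : z = 1 := by omega
    rw [h1, one_pow] at heq
    omega
  have hH3 : 3 ≤ H := by
    by_contra h
    have h1 : z = 2 := by omega
    have h2 : x = 1 := by
      have : x ≤ 2 := by omega
      interval_cases x
      · rfl
      · rw [h1] at hxz; norm_num at hxz
    have h3 : y = 1 := by
      have : y ≤ 2 := by omega
      interval_cases y
      · rfl
      · rw [h1] at hyz; norm_num at hyz
    rw [h1, h2, h3, one_pow, one_pow] at heq
    have : 2 ^ 2 ≤ 2 ^ r := Nat.pow_le_pow_right (by norm_num) hr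
    omega
  have hL1 : 1 ≤ L := by
    have h1 : Real.exp 1 ≤ (H : ℝ) := by
      have h2 : (3 : ℝ) ≤ H := by exact_mod_cast hH3
      have := Real.exp_one_lt_d9
      linarith
    rw [hL, Real.le_log_iff_exp_le (by linarith [Real.exp_pos 1])]
    exact h1
  have hLκ : 1 ≤ L ^ κ := one_le_pow₀ hL1
  have hn2 : (2 : ℝ) ≤ n := by exact_mod_cast hn
  by_contra hcon
  push Not at hcon
  -- `W ≥ 1`
  have hW1 : 1 ≤ W := by
    rcases dist_int x n a with ⟨_, h1⟩ | h1
    · rcases dist_int z n c with ⟨_, h2⟩ | h2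
      · exfalso
        have h3 : n ∣ Nat.gcd x z := by
          rw [h1, h2]
          exact Nat.dvd_gcd (dvd_pow_self n (by omega)) (dvd_pow_self n (by omega))
        rw [hxz] at h3
        have := Nat.le_of_dvd one_pos h3
        omega
      · exact h2.trans hWz
    · exact h1.trans hWx
  have hLW : 1 ≤ L ^ κ * W := by nlinarith
  have hn200 : 200 ≤ n := by
    have h1 : (200 : ℝ) < n := by
      have h2 : (100 * C₀ + 200) * (L ^ κ * W) < n := by
        have : (100 * C₀ + 200) * (L ^ κ * W) = (100 * C₀ + 200) * L ^ κ * W := by ring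
        rw [this]; exact hcon
      nlinarith
    exact_mod_cast h1.le
  -- a base equal to one is far from `n ^ a`
  have hone : ∀ u e : ℕ, 0 < e → |(u : ℝ) - (n : ℝ) ^ e| ≤ W → u ≠ 1 := by
    intro u e he h1 h2
    rw [h2] at h1
    have h3 : (n : ℝ) ≤ (n : ℝ) ^ e := le_self_pow₀ (by linarith) (by omega)
    have h4 : (n : ℝ) - 1 ≤ W := by
      refine le_trans ?_ h1
      rw [abs_sub_comm]
      refine le_trans ?_ (le_abs_self _)
      push_cast
      linarith
    have h5 : (n : ℝ) / 2 ≤ W := by linarith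
    have h6 : (200 : ℝ) * W ≤ (100 * C₀ + 200) * L ^ κ * W := by
      apply mul_le_mul_of_nonneg_right _ (by linarith)
      nlinarith
    linarith
  have hx2 : 2 ≤ x := by have := hone x a ha hWx; omega
  have hy2 : 2 ≤ y := by have := hone y b hb hWy; omega
  have key : ∀ (e : ℕ) (d : ℝ), (e : ℝ) ≤ C₀ * L ^ κ → |d| ≤ W → (e : ℝ) * |d| ≤ n / 100 := by
    intro e d he hd
    have h1 : (e : ℝ) * |d| ≤ (C₀ * L ^ κ) * W :=
      mul_le_mul he hd (abs_nonneg _) (by positivity)
    have h2 : 100 * (C₀ * L ^ κ * W) ≤ (100 * C₀ + 200) * L ^ κ * W := by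
      have h3 : 0 ≤ 200 * (L ^ κ * W) := by positivity
      linarith [h3, show (100 * C₀ + 200) * L ^ κ * W = 100 * (C₀ * L ^ κ * W) + 200 * (L ^ κ * W) by ring]
    linarith
  have p1 := e1 hx2
  have q1 := e2 hy2
  rcases le_total (y ^ q) (x ^ p) with hle | hle
  · exact core_one n a b c p q r x y z hn200 ha hb hc hp hq hr (key p _ p1 hWx) (key p _ p1 hWz)
      (key q _ q1 hWy) (key r _ e3 hWz) hxz heq hle hy
  · exact core_one n b a c q p r y x z hn200 hb ha hc hq hp hr (key q _ q1 hWy) (key q _ q1 hWz)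
      (key p _ p1 hWx) (key r _ e3 hWz) hyz (by rw [add_comm]; exact heq) hle hx

end Pool.Agent.Results.MP_509488_nt.BasesNearPowers
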