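import Mathlib
import Pool.Agent.helper616_fc.Multi

/-!
# The Fermat-Catalan equation on polynomial families of bases: few solutions, all exponents free

Let `f`, `g`, `h` be integer polynomials in `m + 1` variables of degree at most `D`, not all three
constant. The number of the points `u` with integral coordinates of absolute value at most `N` for which
`|f(u)|`, `|g(u)|`, `|h(u)|` are the three bases of a solution of the Fermat-Catalan equation, with
ANY exponents `p, q, r ≥ 2`, `1/p + 1/q + 1/r ≤ 1`, is at most `C N ^ m (log (N + H + 2)) ^ κ`. Here `H` is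
a bound for the coefficients, `C` depends on `m` and `D` only and `κ` is absolute.

In particular (`m = 0`) on every polynomially parametrised curve `n ↦ (f(n), g(n), h(n))` there are at
most `C (log N) ^ κ` parameters `|n| ≤ N` that give bases of a solution, and (`m = 1`) for every integer
polynomial `h` at most `C N (log N) ^ κ` of the pairs `|x|, |y| ≤ N` are, together with `h(x, y)`, the bases of
a solution.

Proof. On a line parallel to one of the axes the three polynomials have a nonconstant common factor, and
then few values are coprime, or for each of the exponents `f ^ p ± g ^ q ± h ^ r` does not vanish identically by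
the theorem of Mason and Stothers and has few zeros; linear forms in two logarithms leave a power of
`log N` possibilities for the exponents. The lines on which all the polynomials are constant are few by the
lemma of Schwartz and Zippel.
-/

set_option autoImplicit false

namespace Pool.Agent.Results.MP_509488_nt.PolynomialFamilies

open MvPolynomial

/-- `x`, `y`, `z` are the bases of a solution of the Fermat-Catalan equation: they are positive and
pairwise coprime, and for some exponents `p, q, r ≥ 2` with `1/p + 1/q + 1/r ≤ 1` one of the powers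
`x ^ p`, `y ^ q`, `z ^ r` is the sum of the two others -/
def Bases (x y z : ℕ) : Prop :=
  0 < x ∧ 0 < y ∧ 0 < z ∧ Nat.Coprime x y ∧ Nat.Coprime x z ∧ Nat.Coprime y z ∧
    ∃ p q r : ℕ, 2 ≤ p ∧ 2 ≤ q ∧ 2 ≤ r ∧ (1 : ℚ) / p + 1 / q + 1 / r ≤ 1 ∧
      (x ^ p + y ^ q = z ^ r ∨ x ^ p + z ^ r = y ^ q ∨ y ^ q + z ^ r = x ^ p)

theorem result : ∃ κ : ℕ, ∀ m D : ℕ, ∃ C : ℝ, ∀ (f g h : MvPolynomial (Fin (m + 1)) ℤ) (H N : ℕ),
    f.totalDegree ≤ D → g.totalDegree ≤ D → h.totalDegree ≤ D →
    (0 < f.totalDegree ∨ 0 < g.totalDegree ∨ 0 < h.totalDegree) →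
    (∀ s, |coeff s f| ≤ H) → (∀ s, |coeff s g| ≤ H) → (∀ s, |coeff s h| ≤ H) → 1 ≤ N →
    (Set.ncard {u : Fin (m + 1) → ℤ | (∀ i, |u i| ≤ N) ∧
        Bases (eval u f).natAbs (eval u g).natAbs (eval u h).natAbs} : ℝ) ≤
      C * (N : ℝ) ^ m * Real.log (N + H + 2) ^ κ :=
  Pool.Agent.helper616_fc.multi

end Pool.Agent.Results.MP_509488_nt.PolynomialFamilies
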